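import Pool.Agent.MP_fe71fa_lc.H18.Iface
import Pool.Agent.MP_62ad46_lc.H18.Arith

set_option autoImplicit false
set_option linter.unusedSectionVars false

/-! Comparison of the two descriptions of definable relations. -/

namespace Pool.Agent.MP_fe71fa_lc.H18

open FirstOrder FirstOrder.Language Pool.Agent.MP_62ad46_lc.H18

variable {M : Type} [CommSemiring M] [LinearOrder M]

/-- Terms with a definable graph. -/
def DT (s : (ℕ → M) → M) : Prop := Ar fun w => s (fun i => w (i + 1)) = w 0

theorem DT.tm {s : (ℕ → M) → M} (h : Tm s) : DT s :=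
  Ar.eq (h.subst (t := fun j w => w (j + 1)) fun _ => Tm.var _) (Tm.var 0)

theorem DT.shift {s : (ℕ → M) → M} (h : DT s) : DT fun v => s fun i => v (i + 1) :=
  Ar.subst h (t := fun j w => match j with | 0 => w 0 | j + 1 => w (j + 2)) fun j =>
    match j with | 0 => Tm.var 0 | _ + 1 => Tm.var _

theorem ar_dt3 {P : M → M → M → Prop} (hP : Ar fun v => P (v 0) (v 1) (v 2))
    {s t u : (ℕ → M) → M} (hs : DT s) (ht : DT t) (hu : DT u) :
    Ar fun v => P (s v) (t v) (u v) := by
  have : Ar fun v => ∃ y, s v = y ∧ ∃ z, t v = z ∧ ∃ x, u v = x ∧ P y z x :=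
    Ar.ex' (Ar.and hs (Ar.ex' (Ar.and ht.shift (Ar.ex' (Ar.and hu.shift.shift
      (hP.app3 (Tm.var 2) (Tm.var 1) (Tm.var 0)))))))
  exact this.congr fun v => by simp

theorem DT.add {s t : (ℕ → M) → M} (hs : DT s) (ht : DT t) : DT fun v => s v + t v :=
  ar_dt3 (P := fun x y z => x + y = z) (Ar.eq (Tm.add (Tm.var 0) (Tm.var 1)) (Tm.var 2))
    hs.shift ht.shift (DT.tm (Tm.var 0))

theorem DT.mul {s t : (ℕ → M) → M} (hs : DT s) (ht : DT t) : DT fun v => s v * t v :=
  ar_dt3 (P := fun x y z => x * y = z) (Ar.eq (Tm.mul (Tm.var 0) (Tm.var 1)) (Tm.var 2))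
    hs.shift ht.shift (DT.tm (Tm.var 0))

theorem DT.term {β : Type} (t : LA.Term β) (s : β → (ℕ → M) → M) (hs : ∀ i, DT (s i)) :
    DT fun v => t.realize fun i => s i v := by
  induction t with
  | var i => exact hs i
  | func f ts ih =>
    cases f with
    | zero => exact DT.tm (Tm.const 0)
    | one => exact DT.tm (Tm.const 1)
    | add => exact (ih 0).add (ih 1)
    | mul => exact (ih 0).mul (ih 1)

theorem ar_formula {α : Type} {n : ℕ} (φ : LA.BoundedFormula α n) :
    ∀ (s : α → (ℕ → M) → M) (t : Fin n → (ℕ → M) → M), (∀ i, DT (s i)) → (∀ i, DT (t i)) →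
      Ar fun v => φ.Realize (fun i => s i v) (fun i => t i v) := by
  have key : ∀ {n : ℕ} (s : α → (ℕ → M) → M) (t : Fin n → (ℕ → M) → M), (∀ i, DT (s i)) →
      (∀ i, DT (t i)) → ∀ u : LA.Term (α ⊕ Fin n),
      DT fun v => u.realize (Sum.elim (fun i => s i v) fun i => t i v) := by
    intro n s t hs ht u
    have := DT.term u (Sum.elim s t) (fun i => by cases i <;> simp [hs, ht])
    convert this using 3
    rename_i v
    funext i
    cases i <;> rfl
  induction φ with
  | falsum => exact fun _ _ _ _ => Ar.const False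
  | equal t₁ t₂ =>
    intro s t hs ht
    exact ar_dt3 (P := fun x y _ => x = y) (Ar.eq (Tm.var 0) (Tm.var 1)) (key s t hs ht t₁)
      (key s t hs ht t₂) (DT.tm (Tm.const 0))
  | rel R ts =>
    intro s t hs ht
    cases R
    exact ar_dt3 (P := fun x y _ => x < y) (Ar.lt (Tm.var 0) (Tm.var 1)) (key s t hs ht (ts 0))
      (key s t hs ht (ts 1)) (DT.tm (Tm.const 0))
  | imp f g ih1 ih2 => exact fun s t hs ht => (ih1 s t hs ht).imp (ih2 s t hs ht)
  | @all n f ih =>
    intro s t hs ht
    refine Ar.all' (Q := fun x v => f.Realize (fun i => s i v) (Fin.snoc (fun i => t i v) x)) ?_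
    have := ih (fun i w => s i fun j => w (j + 1))
      (Fin.snoc (fun i w => t i fun j => w (j + 1)) fun w => w 0) (fun i => (hs i).shift)
      (fun i => by
        refine Fin.lastCases ?_ (fun j => ?_) i
        · rw [Fin.snoc_last]; exact DT.tm (Tm.var 0)
        · rw [Fin.snoc_castSucc]; exact (ht j).shift)
    convert this using 3
    funext i
    refine Fin.lastCases ?_ (fun j => ?_) i <;> simp

theorem tm_term {s : (ℕ → M) → M} (h : Tm s) :
    ∃ t : LA.Term (M ⊕ ℕ), ∀ v, s v = t.realize (Sum.elim id v) := by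
  induction h with
  | var i => exact ⟨Term.var (Sum.inr i), fun v => rfl⟩
  | const c => exact ⟨Term.var (Sum.inl c), fun v => rfl⟩
  | add _ _ h1 h2 =>
    obtain ⟨a, ha⟩ := h1
    obtain ⟨b, hb⟩ := h2
    exact ⟨Term.func (L := LA) Fn.add ![a, b], fun v => congrArg₂ (· + ·) (ha v) (hb v)⟩
  | mul _ _ h1 h2 =>
    obtain ⟨a, ha⟩ := h1
    obtain ⟨b, hb⟩ := h2
    exact ⟨Term.func (L := LA) Fn.mul ![a, b], fun v => congrArg₂ (· * ·) (ha v) (hb v)⟩

theorem formula_of_ar {P : (ℕ → M) → Prop} (h : Ar P) :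
    ∃ φ : LA.Formula (M ⊕ ℕ), ∀ v, P v ↔ φ.Realize (Sum.elim id v) := by
  induction h with
  | eq h1 h2 =>
    obtain ⟨a, ha⟩ := tm_term h1
    obtain ⟨b, hb⟩ := tm_term h2
    exact ⟨a.equal b, fun v => by beta_reduce; rw [ha, hb, Formula.realize_equal]⟩
  | lt h1 h2 =>
    obtain ⟨a, ha⟩ := tm_term h1
    obtain ⟨b, hb⟩ := tm_term h2
    refine ⟨Relations.formula₂ (L := LA) Rl.lt a b, fun v => ?_⟩
    refine Iff.trans ?_ (Formula.realize_rel₂ (L := LA) (R := Rl.lt)).symm
    beta_reduce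
    rw [ha, hb]; rfl
  | not _ ih =>
    obtain ⟨φ, h⟩ := ih
    exact ⟨φ.not, fun v => by beta_reduce; rw [h, Formula.realize_not]⟩
  | and _ _ h1 h2 =>
    obtain ⟨φ, h⟩ := h1
    obtain ⟨ψ, h'⟩ := h2
    exact ⟨φ ⊓ ψ, fun v => by beta_reduce; rw [h, h', Formula.realize_inf]⟩
  | ex _ ih =>
    obtain ⟨φ, h⟩ := ih
    let g : M ⊕ ℕ → (M ⊕ ℕ) ⊕ Unit := fun i => match i with
      | Sum.inl c => Sum.inl (Sum.inl c)
      | Sum.inr 0 => Sum.inr ()
      | Sum.inr (k + 1) => Sum.inl (Sum.inr k)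
    refine ⟨(φ.relabel g).iExs Unit, fun v => ?_⟩
    rw [Formula.realize_iExs]
    have e : ∀ i : Unit → M, Sum.elim (Sum.elim id v) i ∘ g = Sum.elim id (cons (i ()) v) := by
      intro i
      funext j
      rcases j with c | _ | k <;> rfl
    simp only [Formula.realize_relabel, e, ← h]
    exact ⟨fun ⟨x, hx⟩ => ⟨fun _ => x, hx⟩, fun ⟨i, hi⟩ => ⟨i (), hi⟩⟩

/-- A definable binary relation is given by a formula with parameters. -/
theorem formula_of_ar2 {H : M → M → Prop} (h : Ar fun v => H (v 0) (v 1)) :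
    ∃ φ : LA.Formula (M ⊕ Bool), ∀ x y,
      H x y ↔ φ.Realize (Sum.elim id fun b => cond b y x) := by
  obtain ⟨φ, hφ⟩ := formula_of_ar h
  refine ⟨φ.relabel (Sum.map id fun k => decide (k ≠ 0)), fun x y => ?_⟩
  rw [Formula.realize_relabel]
  have := hφ fun k => cond (decide (k ≠ 0)) y x
  simp only [ne_eq, not_true_eq_false, decide_false, cond_false, one_ne_zero, not_false_eq_true,
    decide_true, cond_true] at this
  rw [this]
  congr! 1
  funext j
  cases j <;> rfl

theorem ModelPA.isPA (h : ModelPA M) : IsPA M :=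
  { h.toIsStrictOrderedRing with
    nonneg := h.nonneg
    discrete := h.discrete
    sub := h.sub
    ind := fun P hP h0 hs => by
      refine h.ind {x | P x} ?_ h0 hs
      obtain ⟨φ, hφ⟩ := formula_of_ar hP
      rw [Set.Definable₁, Set.definable_iff_exists_formula_sum]
      refine ⟨φ.relabel (Sum.map (fun c => ⟨c, Set.mem_univ c⟩) fun _ => 0), ?_⟩
      ext v
      simp only [Set.mem_ofPred_eq, Formula.realize_relabel]
      rw [hφ fun _ => v 0]
      congr! 1
      funext j
      cases j <;> rfl }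

theorem ar_forall_fin {ι : Type} [Finite ι] {P : ι → (ℕ → M) → Prop} (h : ∀ i, Ar (P i)) :
    Ar fun v => ∀ i, P i v := by
  have := Fintype.ofFinite ι
  have key : ∀ s : Finset ι, Ar fun v => ∀ i ∈ s, P i v := by
    classical
    intro s
    induction s using Finset.induction_on with
    | empty => exact (Ar.const True).congr fun v => by simp
    | insert a s _ ih => exact ((h a).and ih).congr fun v => by simp
  exact (key Finset.univ).congr fun v => by simp

theorem ar_exists_fin {ι : Type} [Finite ι] {P : ι → (ℕ → M) → Prop} (h : ∀ i, Ar (P i)) :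
    Ar fun v => ∃ i, P i v :=
  (ar_forall_fin (P := fun i v => ¬ P i v) fun i => (h i).not).not.congr fun v => by simp

end Pool.Agent.MP_fe71fa_lc.H18
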