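import Pool.Agent.MP_fe71fa_lc.H18.Iface

set_option autoImplicit false

/-! The finite combinatorial step. -/

namespace Pool.Agent.MP_fe71fa_lc.H18

namespace Reps
variable (X : Reps)

/-- The relation in a power. -/
def Pw (G : FL) {N : ℕ} (r : G) (x y : Fin N → X.V G) : Prop := ∀ j, X.R G r (x j) (y j)

/-- All finite powers of the representation embed. -/
def Rich (G : FL) {α : Type} (A : α → Prop) (E : G → α → α → Prop) : Prop :=
  ∀ N : ℕ, ∃ f : (Fin N → X.V G) → α, (∀ x, A (f x)) ∧ ∀ r x y, E r (f x) (f y) ↔ X.Pw G r x y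

theorem canon_pow (hC : CanonStmt) (G : FL) (N : ℕ) :
    ∃ N' : ℕ, ∀ Θ : (Fin N' → X.V G) → (Fin N' → X.V G) → Prop, Equivalence Θ →
      ∃ (e : (Fin N → X.V G) → (Fin N' → X.V G)) (r0 : G), ∀ x y,
        (∀ r, X.Pw G r (e x) (e y) ↔ X.Pw G r x y) ∧ (Θ (e x) (e y) ↔ X.Pw G r0 x y) := by
  have := X.fin G
  let H := {h : X.V G → X.V G // ∀ r x y, X.R G r x y → X.R G r (h x) (h y)}
  obtain ⟨m, ⟨σ⟩⟩ := Finite.exists_equiv_fin (Fin N × H)
  obtain ⟨N', hN'⟩ := hC (X.V G) m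
  refine ⟨N', fun Θ hΘ => ?_⟩
  obtain ⟨f, ρ, hρ, hf, hfρ⟩ := hN' Θ hΘ
  obtain ⟨r0, hr0⟩ := X.closed G (fun a b => ∀ h : H, ρ (h.1 a) (h.1 b))
    ⟨fun a h => hρ.refl _, fun hab h => hρ.symm (hab h),
      fun hab hbc h => hρ.trans (hab h) (hbc h)⟩
    (fun h hh a b hab h' => hab ⟨h'.1 ∘ h, fun r x y hxy => h'.2 r _ _ (hh r x y hxy)⟩)
  refine ⟨fun x i => Sum.elim id (fun j => (σ.symm j).2.1 (x (σ.symm j).1)) (f i), r0,
    fun x y => ⟨fun r => ⟨fun hr n => ?_, fun hr i => ?_⟩, ?_⟩⟩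
  · obtain ⟨i, hi⟩ := hf (σ (n, ⟨id, fun _ _ _ h => h⟩))
    have := hr i
    simpa [hi] using this
  · cases hfi : f i with
    | inl a => simpa [hfi] using (X.eqv G r).refl a
    | inr j => simpa [hfi] using (σ.symm j).2.2 r _ _ (hr _)
  · rw [hfρ]
    constructor
    · intro h n
      rw [← hr0]
      intro h'
      simpa using h (σ (n, h'))
    · intro h j
      exact (hr0 _ _).2 (h _) _

theorem comb (hC : CanonStmt) (G G' : FL) (g : G → G') (hg : JH g) {α : Type} (A : α → Prop)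
    (E : G → α → α → Prop) (hR : X.Rich G A E) (Θ : α → α → Prop) (h1 : ∀ x, A x → Θ x x)
    (h2 : ∀ x y, A x → A y → Θ x y → Θ y x)
    (h3 : ∀ x y z, A x → A y → A z → Θ x y → Θ y z → Θ x z) (N : ℕ) :
    ∃ f : (Fin N → X.V G') → α, (∀ x, A (f x)) ∧
      (∀ r x y, E r (f x) (f y) ↔ X.Pw G' (g r) x y) ∧
      ∃ r0, ∀ x y, Θ (f x) (f y) ↔ X.Pw G' r0 x y := by
  have := X.fin G
  have := X.fin G'
  obtain ⟨N1, hN1⟩ := X.canon_pow hC G' N
  let H := {h : X.V G' → X.V G // ∀ s u w, X.R G' (g s) u w → X.R G s (h u) (h w)}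
  obtain ⟨N2, ⟨σ⟩⟩ := Finite.exists_equiv_fin (Fin N1 × H)
  obtain ⟨F, hFA, hF⟩ := hR N2
  let u : (Fin N1 → X.V G') → (Fin N2 → X.V G) := fun x j => (σ.symm j).2.1 (x (σ.symm j).1)
  have hu : ∀ r x y, X.Pw G r (u x) (u y) ↔ X.Pw G' (g r) x y := by
    intro r x y
    constructor
    · intro h n
      by_contra hn
      obtain ⟨h', hh', hne⟩ := X.cog G G' g hg r _ _ hn
      apply hne
      simpa [u] using h (σ (n, ⟨h', hh'⟩))
    · intro h j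
      exact (σ.symm j).2.2 r _ _ (h _)
  obtain ⟨e, r0, he⟩ := hN1 (fun x y => Θ (F (u x)) (F (u y)))
    ⟨fun x => h1 _ (hFA _), fun h => h2 _ _ (hFA _) (hFA _) h,
      fun h h' => h3 _ _ _ (hFA _) (hFA _) (hFA _) h h'⟩
  exact ⟨fun x => F (u (e x)), fun x => hFA _,
    fun r x y => by rw [hF, hu, (he x y).1], r0, fun x y => (he x y).2⟩

theorem Rich.sep {X : Reps} {G : FL} {α : Type} {A : α → Prop} {E : G → α → α → Prop}
    (h : X.Rich G A E) {r s : G} (hrs : ¬ r ≤ s) : ∃ x y, A x ∧ A y ∧ E s x y ∧ ¬ E r x y := by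
  obtain ⟨f, hA, hf⟩ := h 1
  obtain ⟨a, b, h1, h2⟩ := X.sep G r s hrs
  exact ⟨f fun _ => a, f fun _ => b, hA _, hA _, (hf _ _ _).2 fun _ => h1,
    fun h => h2 ((hf _ _ _).1 h 0)⟩

theorem Rich.three {X : Reps} {G : FL} {α : Type} {A : α → Prop} {E : G → α → α → Prop}
    (h : X.Rich G A E) {r : G} (hr : r ≠ ⊥) :
    ∃ x y z, A x ∧ A y ∧ A z ∧ ¬ E r x y ∧ ¬ E r x z ∧ ¬ E r y z := by
  obtain ⟨f, hA, hf⟩ := h 2
  obtain ⟨a, b, -, h2⟩ := X.sep G r ⊥ (by simpa using hr)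
  refine ⟨f ![a, a], f ![a, b], f ![b, a], hA _, hA _, hA _, fun h => h2 ?_, fun h => h2 ?_,
    fun h => h2 ?_⟩
  · exact (hf _ _ _).1 h 1
  · exact (hf _ _ _).1 h 0
  · exact (hf _ _ _).1 h 0

theorem Rich.nonempty {X : Reps} {G : FL} {α : Type} {A : α → Prop} {E : G → α → α → Prop}
    (h : X.Rich G A E) : ∃ x, A x := by
  obtain ⟨f, hA, -⟩ := h 0
  exact ⟨f Fin.elim0, hA _⟩

end Reps

end Pool.Agent.MP_fe71fa_lc.H18
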