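import Mathlib

set_option autoImplicit false

/-!
Models of Peano arithmetic, the lattice `M₃` and the variety it generates.
-/

namespace Pool.Agent.MP_fe71fa_lc.H18

open FirstOrder

/-- Function symbols of arithmetic: `0, 1, +, ·`. -/
inductive Fn : ℕ → Type
  | zero : Fn 0
  | one : Fn 0
  | add : Fn 2
  | mul : Fn 2

/-- Relation symbols of arithmetic: `<`. -/
inductive Rl : ℕ → Type
  | lt : Rl 2

/-- The language of arithmetic. -/
def LA : Language := ⟨Fn, Rl⟩

/-- An ordered semiring as a structure for the language of arithmetic. -/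
instance arith (M : Type) [CommSemiring M] [LinearOrder M] : LA.Structure M where
  funMap
    | .zero, _ => 0
    | .one, _ => 1
    | .add, v => v 0 + v 1
    | .mul, v => v 0 * v 1
  RelMap
    | .lt, v => v 0 < v 1

/-- `M` is a model of Peano arithmetic: the axioms of `PA⁻` (a discretely ordered commutative
semiring with least element `0` in which `x ≤ y` gives `x + z = y`) and induction for every set
definable with parameters. -/
structure ModelPA (M : Type) [CommSemiring M] [LinearOrder M] : Prop
    extends IsStrictOrderedRing M where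
  nonneg : ∀ x : M, 0 ≤ x
  discrete : ∀ x : M, 0 < x → 1 ≤ x
  sub : ∀ x y : M, x ≤ y → ∃ z, x + z = y
  ind : ∀ S : Set M, (Set.univ : Set M).Definable₁ LA S → 0 ∈ S → (∀ x ∈ S, x + 1 ∈ S) →
    ∀ x, x ∈ S

/-- The five-element lattice `M₃`. -/
inductive M3 : Type
  | bot | a | b | c | top
  deriving DecidableEq, Fintype

instance : LE M3 := ⟨fun x y => x = .bot ∨ y = .top ∨ x = y⟩

instance : DecidableLE M3 := fun x y => inferInstanceAs (Decidable (x = .bot ∨ y = .top ∨ x = y))

instance : Lattice M3 where
  le_refl := by decide
  le_trans := by decide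
  le_antisymm := by decide
  sup x y := if x ≤ y then y else if y ≤ x then x else .top
  inf x y := if x ≤ y then x else if y ≤ x then y else .bot
  le_sup_left := by decide
  le_sup_right := by decide
  sup_le := by decide
  inf_le_left := by decide
  inf_le_right := by decide
  le_inf := by decide

/-- Lattice terms. -/
inductive LTm : Type
  | var : ℕ → LTm
  | sup : LTm → LTm → LTm
  | inf : LTm → LTm → LTm

/-- The value of a lattice term. -/
def LTm.eval {L : Type} [Lattice L] (v : ℕ → L) : LTm → L
  | .var i => v i
  | .sup p q => p.eval v ⊔ q.eval v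
  | .inf p q => p.eval v ⊓ q.eval v

/-- `L` satisfies every lattice identity that holds in `M₃`. -/
def InVarM3 (L : Type) [Lattice L] : Prop :=
  ∀ p q : LTm, (∀ v : ℕ → M3, p.eval v = q.eval v) → ∀ v : ℕ → L, p.eval v = q.eval v

end Pool.Agent.MP_fe71fa_lc.H18
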