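import Pool.Agent.MP_fe71fa_lc.H18.Defs

set_option autoImplicit false

/-! Interface statements. -/

namespace Pool.Agent.MP_fe71fa_lc.H18

instance : BoundedOrder M3 where
  top := .top
  bot := .bot
  le_top := by decide
  bot_le := by decide

/-- A finite bounded lattice whose bounded homomorphisms to `M₃` separate points. -/
structure FL : Type 1 where
  carrier : Type
  [lat : Lattice carrier]
  [bdd : BoundedOrder carrier]
  [fin : Finite carrier]
  sep : ∀ r s : carrier, ¬ r ≤ s → ∃ π : BoundedLatticeHom carrier M3, ¬ π r ≤ π s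

attribute [instance] FL.lat FL.bdd FL.fin

instance : CoeSort FL Type := ⟨FL.carrier⟩

/-- Preserves binary joins, bottom and top. -/
def JH {A B : Type} [Lattice A] [BoundedOrder A] [Lattice B] [BoundedOrder B] (g : A → B) : Prop :=
  (∀ r s, g (r ⊔ s) = g r ⊔ g s) ∧ g ⊥ = ⊥ ∧ g ⊤ = ⊤

/-- A finite set of compact elements factors through a finite lattice of the class `FL`. -/
def LatStmt : Prop :=
  ∀ (L : Type) [CompleteLattice L] [IsCompactlyGenerated L], InVarM3 L →
    IsCompactElement (⊤ : L) → ∀ T : Finset L, (∀ t ∈ T, IsCompactElement t) →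
    ∃ (G : FL) (i : L → G) (ψ : G → L), JH i ∧ JH ψ ∧ (∀ r, IsCompactElement (ψ r)) ∧
      ∀ t ∈ T, ψ (i t) = t

/-- The canonical Hales-Jewett theorem (Proemel-Voigt). -/
def CanonStmt : Prop :=
  ∀ (A : Type) [Finite A] (m : ℕ), ∃ N : ℕ, ∀ Θ : (Fin N → A) → (Fin N → A) → Prop,
    Equivalence Θ → ∃ (f : Fin N → A ⊕ Fin m) (ρ : A → A → Prop), Equivalence ρ ∧
      (∀ j, ∃ i, f i = Sum.inr j) ∧
      ∀ x y : Fin m → A, Θ (fun i => Sum.elim id x (f i)) (fun i => Sum.elim id y (f i)) ↔
        ∀ j, ρ (x j) (y j)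

/-- Representations of the lattices of the class `FL` by equivalence relations. -/
structure Reps : Type 1 where
  V : FL → Type
  fin : ∀ G, Finite (V G)
  ne : ∀ G, Nonempty (V G)
  R : ∀ G : FL, G → V G → V G → Prop
  eqv : ∀ G r, Equivalence (R G r)
  sup : ∀ G r s x y, R G (r ⊔ s) x y ↔ R G r x y ∧ R G s x y
  top : ∀ G x y, R G ⊤ x y ↔ x = y
  bot : ∀ G x y, R G ⊥ x y
  sep : ∀ (G : FL) (r s : G), ¬ r ≤ s → ∃ x y, R G s x y ∧ ¬ R G r x y
  /-- an equivalence relation compatible with all maps preserving the `R G r` is an `R G r` -/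
  closed : ∀ (G : FL) (ρ : V G → V G → Prop), Equivalence ρ →
    (∀ h : V G → V G, (∀ r x y, R G r x y → R G r (h x) (h y)) → ∀ x y, ρ x y → ρ (h x) (h y)) →
    ∃ r, ∀ x y, ρ x y ↔ R G r x y
  /-- cogeneration -/
  cog : ∀ (G G' : FL) (g : G → G'), JH g → ∀ (r : G) (x y : V G'), ¬ R G' (g r) x y →
    ∃ h : V G' → V G, (∀ s u w, R G' (g s) u w → R G s (h u) (h w)) ∧ ¬ R G r (h x) (h y)

def RepStmt : Prop := Nonempty Reps

/-- The final statement. -/
def FinalStmt : Prop :=
  ∀ (L : Type) [CompleteLattice L] [IsCompactlyGenerated L],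
    {a : L | IsCompactElement a}.Countable → InVarM3 L →
    ∀ (M : Type) [CommSemiring M] [LinearOrder M] [Countable M], ModelPA M →
      ¬ Function.Surjective (Nat.cast : ℕ → M) →
      ∃ (N : Type) (_ : LA.Structure N) (e : LA.ElementaryEmbedding M N),
        Nonempty ({K : LA.ElementarySubstructure N // ∀ m, e m ∈ K} ≃o L)

end Pool.Agent.MP_fe71fa_lc.H18
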