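import Pool.Agent.MP_fe71fa_lc.H18.Iface

set_option autoImplicit false

/-! The tower of finite lattices. -/

namespace Pool.Agent.MP_fe71fa_lc.H18

/-- The compact elements of `WithTop L` as a direct limit of lattices of the class `FL`. -/
def TowerStmt : Prop :=
  ∀ (L : Type) [CompleteLattice L] [IsCompactlyGenerated L],
    {a : L | IsCompactElement a}.Countable → InVarM3 L →
    ∃ (G : ℕ → FL) (ψ : ∀ n, G n → WithTop L) (g : ∀ n, G n → G (n + 1)),
      (∀ n, JH (ψ n)) ∧ (∀ n, JH (g n)) ∧ (∀ n r, ψ (n + 1) (g n r) = ψ n r) ∧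
      (∀ n r s, ψ n r ≤ ψ n s → g n r ≤ g n s) ∧
      (∀ n r (x : L), ψ n r = x → IsCompactElement x) ∧
      ∀ x : L, IsCompactElement x → ∃ n r, ψ n r = x

end Pool.Agent.MP_fe71fa_lc.H18
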