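import Pool.Agent.MP_fe71fa_lc.H18.Bridge
import Pool.Agent.MP_fe71fa_lc.H18.Comb

set_option autoImplicit false
set_option linter.unusedSectionVars false
set_option synthInstance.maxSize 100000

/-! The overspill step. -/

namespace Pool.Agent.MP_fe71fa_lc.H18

open Pool.Agent.MP_62ad46_lc.H18

variable {M : Type} [CommSemiring M] [LinearOrder M] [IsPA M]

instance (priority := 90) {ι : Type} [Finite ι] {P : ι → (ℕ → M) → Prop} [h : ∀ i, ArI (P i)] :
    ArI fun v => ∀ i, P i v := ⟨ar_forall_fin fun i => (h i).out⟩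
instance (priority := 90) {ι : Type} [Finite ι] {P : ι → (ℕ → M) → Prop} [h : ∀ i, ArI (P i)] :
    ArI fun v => ∃ i, P i v := ⟨ar_exists_fin fun i => (h i).out⟩
instance (priority := 2000) (p : Prop) : ArI fun _ : ℕ → M => p := ⟨Ar.const p⟩

/-- The laws of a representation on a set. -/
structure Laws (G : FL) {α : Type} (A : α → Prop) (E : G → α → α → Prop) : Prop where
  refl : ∀ r x, A x → E r x x
  symm : ∀ r x y, A x → A y → E r x y → E r y x
  trans : ∀ r x y z, A x → A y → A z → E r x y → E r y z → E r x z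
  sup : ∀ r s x y, A x → A y → (E (r ⊔ s) x y ↔ E r x y ∧ E s x y)
  top : ∀ x y, A x → A y → E ⊤ x y → x = y
  bot : ∀ x y, A x → A y → E ⊥ x y

/-- A bounded definable rich representation. -/
structure Stage (X : Reps) (M : Type) [CommSemiring M] [LinearOrder M] (G : FL) where
  A : M → Prop
  E : G → M → M → Prop
  arA : Ar1 A
  arE : ∀ r, Ar2 (E r)
  bdd : ∃ b, ∀ x, A x → x < b
  laws : Laws G A E
  rich : X.Rich G A E

/-- The levels of a tree of height `N`. -/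
def Tree (X : Reps) (G : FL) (N : M) (A : M → Prop) (E : G → M → M → Prop) (D : M → M → Prop)
    (F : X.V G → M → M → M → Prop) : Prop :=
  (∃ b, D 0 b) ∧ (∀ i x, D i x → A x) ∧
    (∀ v, ∀ i, i < N → ∀ x, D i x → ∃ y, D (i + 1) y ∧ F v i x y) ∧
    ∀ r v w, ∀ i x x' y y', F v i x y → F w i x' y' → (E r y y' ↔ E r x x' ∧ X.R G r v w)

theorem Tree.rich {X : Reps} {G : FL} {N : M} {A : M → Prop} {E : G → M → M → Prop}
    {D : M → M → Prop} {F : X.V G → M → M → M → Prop} (h : Tree X G N A E D F)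
    (hN : N ∉ omega M) (hr : ∀ r x, A x → E r x x) : X.Rich G A E := by
  obtain ⟨⟨b, hb⟩, h2, h3, h4⟩ := h
  have key : ∀ n : ℕ, ∃ f : (Fin n → X.V G) → M, (∀ x, D n (f x)) ∧
      ∀ r x y, E r (f x) (f y) ↔ X.Pw G r x y := by
    intro n
    induction n with
    | zero =>
      exact ⟨fun _ => b, fun _ => by simpa using hb,
        fun r x y => ⟨fun _ j => j.elim0, fun _ => hr r b (h2 _ _ hb)⟩⟩
    | succ n ih =>
      obtain ⟨f, hf1, hf2⟩ := ih
      have hn : (n : M) < N := lt_of_le_of_ne (le_of_nonstd (nat_std n) hN)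
        fun e => hN (e ▸ nat_std n)
      choose y hy1 hy2 using fun (x : Fin (n + 1) → X.V G) =>
        h3 (x 0) n hn (f (Fin.tail x)) (hf1 _)
      refine ⟨y, fun x => by simpa using hy1 x, fun r x x' => ?_⟩
      rw [h4 r _ _ _ _ _ _ _ (hy2 x) (hy2 x'), hf2]
      simp only [Reps.Pw, Fin.forall_fin_succ, Fin.tail]
      tauto
  intro n
  obtain ⟨f, hf1, hf2⟩ := key n
  exact ⟨f, fun x => h2 _ _ (hf1 x), hf2⟩

theorem code2 {P : M → M → Prop} (h : {p : M × M | P p.1 p.2}.Finite) :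
    ∃ k : M, ∀ x y, mem (pr x y) k ↔ P x y := by
  obtain ⟨k, hk⟩ := exists_code_of_finite (h.image fun p => pr p.1 p.2)
  refine ⟨k, fun x y => (hk _).trans ⟨?_, fun h => ⟨(x, y), h, rfl⟩⟩⟩
  rintro ⟨⟨a, b⟩, h1, h2⟩
  obtain ⟨rfl, rfl⟩ := pr_inj.1 h2
  exact h1

/-- A finite family of coded sets is given by one code. -/
theorem code_fam {ι : Type} [Finite ι] (ν : ι → M) (hν : Function.Injective ν)
    {P : ι → M → Prop} (h : ∀ i, {x | P i x}.Finite) :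
    ∃ k : M, ∀ i x, mem (pr (ν i) x) k ↔ P i x := by
  obtain ⟨k, hk⟩ := code2 (P := fun a x => ∃ i, a = ν i ∧ P i x) (by
    refine (Set.finite_iUnion fun i => (h i).image fun x => (ν i, x)).subset ?_
    rintro ⟨a, x⟩ ⟨i, rfl, hi⟩
    exact Set.mem_iUnion.2 ⟨i, x, hi, rfl⟩)
  refine ⟨k, fun i x => (hk _ _).trans ⟨?_, fun h => ⟨i, rfl, h⟩⟩⟩
  rintro ⟨j, e, hj⟩
  exact hν e ▸ hj

theorem exists_num (ι : Type) [Finite ι] : ∃ ν : ι → M, Function.Injective ν := by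
  obtain ⟨f, hf⟩ := Countable.exists_injective_nat ι
  exact ⟨fun i => (f i : M), fun a b h => hf (Nat.cast_injective (R := M) h)⟩

theorem tree_std (X : Reps) (G : FL) (n : ℕ) (f : (Fin n → X.V G) → M)
    (hf : Function.Injective f) :
    ∃ (D : M → M → Prop) (F : X.V G → M → M → M → Prop),
      Tree X G (n : M) (fun a => ∃ x, a = f x)
        (fun r a b => ∃ x y, a = f x ∧ b = f y ∧ X.Pw G r x y) D F ∧
      {p : M × M | D p.1 p.2}.Finite ∧
      ∀ v, {t | ∃ i a b, t = pr i (pr a b) ∧ F v i a b}.Finite := by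
  obtain ⟨v0⟩ := X.ne G
  have := X.fin G
  classical
  refine ⟨fun i a => ∃ (k : Fin (n + 1)) (x : Fin n → X.V G), i = (k : ℕ) ∧ a = f x ∧
      ∀ j : Fin n, (k : ℕ) ≤ j → x j = v0,
    fun v i a b => ∃ (k : Fin n) (x : Fin n → X.V G), i = (k : ℕ) ∧ a = f x ∧ x k = v0 ∧
      b = f (Function.update x k v), ⟨⟨f fun _ => v0, 0, _, by simp, rfl, fun _ _ => rfl⟩, ?_, ?_, ?_⟩,
      ?_, ?_⟩
  · rintro i a ⟨k, x, -, h, -⟩
    exact ⟨x, h⟩
  · rintro v i hi a ⟨k, x, rfl, rfl, hx⟩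
    have hk : (k : ℕ) < n := by exact_mod_cast hi
    refine ⟨f (Function.update x ⟨k, hk⟩ v), ⟨⟨k + 1, by omega⟩, _, by simp, rfl, fun j hj => ?_⟩,
      ⟨k, hk⟩, x, rfl, rfl, hx _ le_rfl, rfl⟩
    have hj' : (k : ℕ) + 1 ≤ j := hj
    rw [Function.update_of_ne (fun e => by rw [e] at hj'; simp at hj')]
    exact hx j (by omega)
  · rintro r v w i a a' b b' ⟨k, x, rfl, rfl, hx, rfl⟩ ⟨k', x', hk, rfl, hx', rfl⟩
    have : k = k' := Fin.ext (Nat.cast_injective (R := M) hk)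
    subst this
    have e : ∀ x y, (∃ x₁ y₁, f x = f x₁ ∧ f y = f y₁ ∧ X.Pw G r x₁ y₁) ↔ X.Pw G r x y :=
      fun x y => ⟨fun ⟨_, _, h1, h2, h3⟩ => hf h1 ▸ hf h2 ▸ h3, fun h => ⟨x, y, rfl, rfl, h⟩⟩
    beta_reduce
    rw [e, e]
    constructor
    · intro h
      refine ⟨fun j => ?_, by simpa using h k⟩
      by_cases hj : j = k
      · rw [hj, hx, hx']; exact (X.eqv G r).refl _
      · simpa [Function.update_of_ne hj] using h j
    · intro h j
      by_cases hj : j = k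
      · simpa [hj] using h.2
      · simpa [Function.update_of_ne hj] using h.1 j
  · refine (Set.finite_range fun q : Fin (n + 1) × (Fin n → X.V G) =>
      (((q.1 : ℕ) : M), f q.2)).subset ?_
    rintro ⟨i, a⟩ ⟨k, x, h1, h2, -⟩
    exact ⟨(k, x), Prod.ext h1.symm h2.symm⟩
  · intro v
    refine (Set.finite_range fun q : Fin n × (Fin n → X.V G) =>
      pr ((q.1 : ℕ) : M) (pr (f q.2) (f (Function.update q.2 q.1 v)))).subset ?_
    rintro t ⟨i, a, b, rfl, k, x, rfl, rfl, -, rfl⟩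
    exact ⟨(k, x), rfl⟩

theorem step_aux (hM : ∃ a : M, a ∉ omega M) (X : Reps) (G : FL) {ι : Type} [Finite ι]
    (A : M → Prop) [Ar1 A] (E : ι → M → M → Prop) [∀ r, Ar2 (E r)] (g : ι → G)
    (Θ : M → M → Prop) [Ar2 Θ]
    (h : ∀ N : ℕ, ∃ f : (Fin N → X.V G) → M, Function.Injective f ∧ (∀ x, A (f x)) ∧
      (∀ r x y, E r (f x) (f y) ↔ X.Pw G (g r) x y) ∧
      ∃ r0, ∀ x y, Θ (f x) (f y) ↔ X.Pw G r0 x y) :
    ∃ S : Stage X M G, (∀ x, S.A x → A x) ∧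
      (∀ r x y, S.A x → S.A y → (E r x y ↔ S.E (g r) x y)) ∧
      ∃ r0, ∀ x y, S.A x → S.A y → (Θ x y ↔ S.E r0 x y) := by
  have := X.fin G
  obtain ⟨ν, hν⟩ := exists_num (M := M) G
  obtain ⟨μ, hμ⟩ := exists_num (M := M) (X.V G)
  let P : M → Prop := fun N => ∃ cA cE cD cF : M,
    Tree X G N (fun x => mem x cA) (fun r x y => mem (pr (ν r) (pr x y)) cE)
      (fun i x => mem (pr i x) cD) (fun v i x y => mem (pr (μ v) (pr i (pr x y))) cF) ∧
    ((∀ r x, mem x cA → mem (pr (ν r) (pr x x)) cE) ∧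
    (∀ r x y, mem x cA → mem y cA → mem (pr (ν r) (pr x y)) cE → mem (pr (ν r) (pr y x)) cE) ∧
    (∀ r x y z, mem x cA → mem y cA → mem z cA → mem (pr (ν r) (pr x y)) cE →
      mem (pr (ν r) (pr y z)) cE → mem (pr (ν r) (pr x z)) cE) ∧
    (∀ r s x y, mem x cA → mem y cA → (mem (pr (ν (r ⊔ s)) (pr x y)) cE ↔
      mem (pr (ν r) (pr x y)) cE ∧ mem (pr (ν s) (pr x y)) cE)) ∧
    (∀ x y, mem x cA → mem y cA → mem (pr (ν ⊤) (pr x y)) cE → x = y) ∧
    (∀ x y, mem x cA → mem y cA → mem (pr (ν ⊥) (pr x y)) cE)) ∧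
    (∀ x, mem x cA → A x) ∧
    (∀ r x y, mem x cA → mem y cA → (E r x y ↔ mem (pr (ν (g r)) (pr x y)) cE)) ∧
    ∃ r0, ∀ x y, mem x cA → mem y cA → (Θ x y ↔ mem (pr (ν r0) (pr x y)) cE)
  have hP : Ar fun v => P (v 0) := by
    simp only [P, Tree]
    exact ArI.out
  obtain ⟨c, hc, hcP⟩ := overspill hM hP (fun n => by
    obtain ⟨f, hf, hA, hE, r0, hΘ⟩ := h n
    obtain ⟨D, F, hT, hD, hF⟩ := tree_std X G n f hf
    obtain ⟨cA, hcA⟩ := exists_code_of_finite (Set.finite_range f)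
    obtain ⟨cD, hcD⟩ := code2 hD
    obtain ⟨cF, hcF⟩ := code_fam μ hμ hF
    obtain ⟨cE, hcE⟩ := code_fam ν hν
      (P := fun r t => ∃ x y, t = pr (f x) (f y) ∧ X.Pw G r x y) (fun r =>
        (Set.finite_range fun q : (Fin n → X.V G) × (Fin n → X.V G) =>
          pr (f q.1) (f q.2)).subset (by
            rintro t ⟨x, y, rfl, -⟩
            exact ⟨(x, y), rfl⟩))
    have e1 : ∀ a, mem a cA ↔ ∃ x, a = f x := fun a => by
      rw [hcA]; exact ⟨fun ⟨x, h⟩ => ⟨x, h.symm⟩, fun ⟨x, h⟩ => ⟨x, h.symm⟩⟩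
    have e2 : ∀ r a b, mem (pr (ν r) (pr a b)) cE ↔
        ∃ x y, a = f x ∧ b = f y ∧ X.Pw G r x y := fun r a b => by
      simp only [hcE, pr_inj, and_assoc]
    have e3 : ∀ v i a b, mem (pr (μ v) (pr i (pr a b))) cF ↔ F v i a b := fun v i a b => by
      simp only [hcF, pr_inj, and_assoc]
      exact ⟨fun ⟨_, _, _, h1, h2, h3, h4⟩ => h1 ▸ h2 ▸ h3 ▸ h4,
        fun h => ⟨_, _, _, rfl, rfl, rfl, h⟩⟩
    have e4 : ∀ r x y, mem (pr (ν r) (pr (f x) (f y))) cE ↔ X.Pw G r x y := fun r x y => by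
      rw [e2]
      exact ⟨fun ⟨_, _, h1, h2, h3⟩ => hf h1 ▸ hf h2 ▸ h3, fun h => ⟨x, y, rfl, rfl, h⟩⟩
    refine ⟨cA, cE, cD, cF, by simpa only [e1, e2, e3, hcD] using hT, ?_⟩
    simp only [e1, forall_exists_index]
    refine ⟨⟨?_, ?_, ?_, ?_, ?_, ?_⟩, ?_, ?_, r0, ?_⟩
    · rintro r _ x rfl
      exact (e4 _ _ _).2 fun j => (X.eqv G r).refl _
    · rintro r _ _ x rfl y rfl
      rw [e4, e4]
      exact fun h j => (X.eqv G r).symm (h j)
    · rintro r _ _ _ x rfl y rfl z rfl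
      rw [e4, e4, e4]
      exact fun h h' j => (X.eqv G r).trans (h j) (h' j)
    · rintro r s _ _ x rfl y rfl
      rw [e4, e4, e4]
      simp only [Reps.Pw, X.sup, forall_and]
    · rintro _ _ x rfl y rfl
      rw [e4]
      exact fun h => congrArg f (funext fun j => (X.top G _ _).1 (h j))
    · rintro _ _ x rfl y rfl
      exact (e4 _ _ _).2 fun j => X.bot G _ _
    · rintro _ x rfl
      exact hA x
    · rintro r _ _ x rfl y rfl
      rw [e4, hE]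
    · rintro _ _ x rfl y rfl
      rw [e4, hΘ])
  obtain ⟨cA, cE, cD, cF, hT, ⟨l1, l2, l3, l4, l5, l6⟩, h1, h2, h3⟩ := hcP c le_rfl
  exact ⟨⟨fun x => mem x cA, fun r x y => mem (pr (ν r) (pr x y)) cE, ⟨ArI.out⟩,
    fun r => ⟨ArI.out⟩, ⟨cA, fun x => lt_of_mem⟩, ⟨l1, l2, l3, l4, l5, l6⟩, hT.rich hc l1⟩,
    h1, h2, h3⟩

theorem stage_init (hM : ∃ a : M, a ∉ omega M) (X : Reps) (G : FL) : Nonempty (Stage X M G) := by
  have := X.fin G
  have : Ar1 fun _ : M => True := ⟨Ar.const _⟩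
  have : Ar2 fun _ _ : M => True := ⟨Ar.const _⟩
  have : ∀ r : Empty, Ar2 ((fun _ _ _ => True : Empty → M → M → Prop) r) := fun r => r.elim
  obtain ⟨S, -⟩ := step_aux hM X G (fun _ => True) (ι := Empty) (fun _ _ _ => True) Empty.elim
    (fun _ _ => True) (fun N => by
      obtain ⟨f, hf⟩ := exists_num (M := M) (Fin N → X.V G)
      exact ⟨f, hf, fun _ => trivial, fun r => r.elim, ⊥, fun x y =>
        ⟨fun _ j => X.bot G _ _, fun _ => trivial⟩⟩)
  exact ⟨S⟩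

theorem stage_step (hC : CanonStmt) (hM : ∃ a : M, a ∉ omega M) {X : Reps} {G G' : FL}
    (S : Stage X M G) (g : G → G') (hg : JH g) (Θ : M → M → Prop) [Ar2 Θ]
    (h1 : ∀ x, S.A x → Θ x x) (h2 : ∀ x y, S.A x → S.A y → Θ x y → Θ y x)
    (h3 : ∀ x y z, S.A x → S.A y → S.A z → Θ x y → Θ y z → Θ x z) :
    ∃ S' : Stage X M G', (∀ x, S'.A x → S.A x) ∧
      (∀ r x y, S'.A x → S'.A y → (S.E r x y ↔ S'.E (g r) x y)) ∧
      ∃ r0, ∀ x y, S'.A x → S'.A y → (Θ x y ↔ S'.E r0 x y) := by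
  have := S.arA
  have := S.arE
  refine step_aux hM X G' S.A S.E g Θ fun N => ?_
  obtain ⟨f, hA, hE, hΘ⟩ := X.comb hC G G' g hg S.A S.E S.rich Θ h1 h2 h3 N
  refine ⟨f, fun x y e => funext fun j => (X.top G' _ _).1 ?_, hA, hE, hΘ⟩
  have := (hE ⊤ x y).1 (e ▸ S.laws.refl ⊤ _ (hA x)) j
  rwa [hg.2.2] at this

end Pool.Agent.MP_fe71fa_lc.H18
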