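import Pool.Agent.MP_fe71fa_lc.H18.Step
import Pool.Agent.MP_fe71fa_lc.H18.Iface2

set_option autoImplicit false
set_option linter.unusedSectionVars false
set_option synthInstance.maxSize 100000

/-! The tower of definable representations and the rank of definable functions. -/

namespace Pool.Agent.MP_fe71fa_lc.H18

open Pool.Agent.MP_62ad46_lc.H18

variable {M : Type} [CommSemiring M] [LinearOrder M] [IsPA M]

/-- The graph of a function. -/
def Gr (f : M → M) (x y : M) : Prop := f x = y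

/-- Definable functions. -/
def DF (f : M → M) : Prop := Ar2 (Gr f)

theorem DF.const (c : M) : DF fun _ => c := ⟨Ar.eq (Tm.const c) (Tm.var 1)⟩

theorem DF.pair {f h : M → M} (hf : DF f) (hh : DF h) : DF fun x => pr (f x) (h x) := by
  have : Ar2 (Gr f) := hf
  have : Ar2 (Gr h) := hh
  have : Ar fun v : ℕ → M => ∃ a b, Gr f (v 0) a ∧ Gr h (v 0) b ∧ pr a b = v 1 := ArI.out
  exact ⟨this.congr fun v => by simp [Gr]⟩

theorem DF.dt {f : M → M} (hf : DF f) (i : ℕ) : DT fun v => f (v i) :=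
  Ar.app2 (W := Gr f) (Ar2.out (self := hf)) (Tm.var (i + 1)) (Tm.var 0)

/-- The least witness function. -/
theorem exists_DF (R : M → M → Prop) [Ar2 R] (h : ∀ x, ∃ y, R x y) :
    ∃ f, DF f ∧ (∀ x, R x (f x)) ∧ ∀ x x', (∀ y, R x y ↔ R x' y) → f x = f x' := by
  have : ∀ x, ∃ y, R x y ∧ ∀ z, R x z → y ≤ z := fun x => by
    obtain ⟨y, hy⟩ := h x
    exact exists_least (P := R x) (by exact ArI.out) hy
  choose f h1 h2 using this
  refine ⟨f, ⟨?_⟩, h1, fun x x' e => le_antisymm (h2 _ _ ((e _).2 (h1 _))) (h2 _ _ ((e _).1 (h1 _)))⟩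
  have : Ar fun v : ℕ → M => R (v 0) (v 1) ∧ ∀ z, R (v 0) z → v 1 ≤ z := ArI.out
  exact this.congr fun v => ⟨fun h => le_antisymm (h2 _ _ h.1) (h.2 _ (h1 _)),
    fun h => by rw [← show f (v 0) = v 1 from h]; exact ⟨h1 _, h2 _⟩⟩

theorem exists_stages (hC : CanonStmt) (hM : ∃ a : M, a ∉ omega M) [Countable M] (X : Reps)
    (G : ℕ → FL) (g : ∀ n, G n → G (n + 1)) (hg : ∀ n, JH (g n)) :
    ∃ S : ∀ n, Stage X M (G n), (∀ n x, (S (n + 1)).A x → (S n).A x) ∧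
      (∀ n r x y, (S (n + 1)).A x → (S (n + 1)).A y →
        ((S n).E r x y ↔ (S (n + 1)).E (g n r) x y)) ∧
      ∀ f, DF f → ∃ n r, ∀ x y, (S n).A x → (S n).A y → (f x = f y ↔ (S n).E r x y) := by
  obtain ⟨k, hk⟩ := exists_surjective_nat M
  have step : ∀ n (S : Stage X M (G n)), ∃ S' : Stage X M (G (n + 1)), (∀ x, S'.A x → S.A x) ∧
      (∀ r x y, S'.A x → S'.A y → (S.E r x y ↔ S'.E (g n r) x y)) ∧
      ∀ f : M → M, (∀ x y, S.A x → S.A y → (f x = f y ↔ mem (pr x y) (k n))) →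
        ∃ r, ∀ x y, S'.A x → S'.A y → (f x = f y ↔ S'.E r x y) := by
    intro n S
    by_cases hf : ∃ f : M → M, ∀ x y, S.A x → S.A y → (f x = f y ↔ mem (pr x y) (k n))
    · obtain ⟨f, hf⟩ := hf
      have : Ar2 fun x y : M => mem (pr x y) (k n) := ⟨ArI.out⟩
      obtain ⟨S', h1, h2, r, h3⟩ := stage_step hC hM S (g n) (hg n)
        (fun x y => mem (pr x y) (k n)) (fun x hx => (hf x x hx hx).1 rfl)
        (fun x y hx hy h => (hf _ _ hy hx).1 ((hf _ _ hx hy).2 h).symm)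
        (fun x y z hx hy hz h h' =>
          (hf _ _ hx hz).1 (((hf _ _ hx hy).2 h).trans ((hf _ _ hy hz).2 h')))
      exact ⟨S', h1, h2, fun f' hf' => ⟨r, fun x y hx hy =>
        (hf' x y (h1 _ hx) (h1 _ hy)).trans (h3 x y hx hy)⟩⟩
    · have : Ar2 fun _ _ : M => True := ⟨Ar.const _⟩
      obtain ⟨S', h1, h2, -⟩ := stage_step hC hM S (g n) (hg n) (fun _ _ => True)
        (fun _ _ => trivial) (fun _ _ _ _ _ => trivial) (fun _ _ _ _ _ _ _ _ => trivial)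
      exact ⟨S', h1, h2, fun f' hf' => absurd ⟨f', hf'⟩ hf⟩
  choose nx h1 h2 h3 using step
  obtain ⟨S0⟩ := stage_init hM X (G 0)
  let S : ∀ n, Stage X M (G n) := fun n => Nat.rec (motive := fun n => Stage X M (G n)) S0 nx n
  refine ⟨S, fun n => h1 n (S n), fun n => h2 n (S n), fun f hf => ?_⟩
  have h0 : ∀ n x, (S n).A x → S0.A x := by
    intro n
    induction n with
    | zero => exact fun _ h => h
    | succ n ih => exact fun x h => ih x (h1 n (S n) x h)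
  obtain ⟨b, hb⟩ := S0.bdd
  have : Ar2 (Gr f) := hf
  obtain ⟨c, hc⟩ := compr (P := fun t => ∃ x y z, t = pr x y ∧ Gr f x z ∧ Gr f y z)
    (by exact ArI.out) (pr b b)
  obtain ⟨n, rfl⟩ := hk c
  refine ⟨n + 1, h3 n (S n) f fun x y hx hy => ?_⟩
  rw [hc]
  constructor
  · exact fun e => ⟨pr_lt (add_lt_add (hb _ (h0 _ _ hx)) (hb _ (h0 _ _ hy))),
      x, y, f x, rfl, rfl, e.symm⟩
  · rintro ⟨-, x', y', z, e, h, h'⟩
    obtain ⟨rfl, rfl⟩ := pr_inj.1 e
    exact Eq.trans h (Eq.symm h')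

theorem JH.mono {A B : Type} [Lattice A] [BoundedOrder A] [Lattice B] [BoundedOrder B]
    {g : A → B} (h : JH g) {r s : A} (hrs : r ≤ s) : g r ≤ g s := by
  rw [← sup_eq_right] at hrs ⊢
  rw [← h.1, hrs]

/-- A complete type together with a rank function on definable functions. -/
structure Sys (M : Type) [CommSemiring M] [LinearOrder M] (L : Type) [CompleteLattice L] where
  A : ℕ → M → Prop
  Φ : (M → M) → WithTop L
  ar : ∀ n, Ar1 (A n)
  anti : ∀ m n x, m ≤ n → A n x → A m x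
  ne : ∀ n, ∃ x, A n x
  le_iff : ∀ f h, DF f → DF h →
    (Φ h ≤ Φ f ↔ ∃ n, ∀ x y, A n x → A n y → f x = f y → h x = h y)
  sup : ∀ f h, DF f → DF h → Φ (fun x => pr (f x) (h x)) = Φ f ⊔ Φ h
  const : ∀ c, Φ (fun _ => c) = ⊥
  dec : ∀ P : M → Prop, Ar1 P → ∃ n, (∀ x, A n x → P x) ∨ ∀ x, A n x → ¬ P x
  range : ∀ x : L, IsCompactElement x ↔ ∃ f, DF f ∧ Φ f = x

theorem exists_sys (hC : CanonStmt) (hR : RepStmt) (hT : TowerStmt)
    (hM : ∃ a : M, a ∉ omega M) [Countable M] (L : Type) [CompleteLattice L]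
    [IsCompactlyGenerated L] (hc : {a : L | IsCompactElement a}.Countable) (hV : InVarM3 L) :
    Nonempty (Sys M L) := by
  obtain ⟨X⟩ := hR
  obtain ⟨G, ψ, g, hψ, hg, t1, t2, t3, t4⟩ := hT L hc hV
  obtain ⟨S, s1, s2, s3⟩ := exists_stages hC hM X G g hg
  let At : ∀ n, (M → M) → G n → Prop := fun n f r =>
    ∀ x y, (S n).A x → (S n).A y → (f x = f y ↔ (S n).E r x y)
  have anti : ∀ m n, m ≤ n → ∀ x, (S n).A x → (S m).A x := by
    intro m n h
    induction n, h using Nat.le_induction with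
    | base => exact fun _ h => h
    | succ n _ ih => exact fun x h => ih x (s1 n x h)
  have up1 : ∀ n f r, At n f r → At (n + 1) f (g n r) := fun n f r h x y hx hy =>
    (h x y (s1 _ _ hx) (s1 _ _ hy)).trans (s2 n r x y hx hy)
  have up : ∀ m n, m ≤ n → ∀ f r, At m f r → ∃ r', ψ n r' = ψ m r ∧ At n f r' := by
    intro m n h f r hr
    induction n, h using Nat.le_induction with
    | base => exact ⟨r, rfl, hr⟩
    | succ n _ ih =>
      obtain ⟨r', h1, h2⟩ := ih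
      exact ⟨g n r', (t1 n r').trans h1, up1 n f r' h2⟩
  let Rk : (M → M) → WithTop L → Prop := fun f a => ∃ n r, ψ n r = a ∧ At n f r
  have common : ∀ f h a b, Rk f a → Rk h b → ∀ n0, ∃ m r s, n0 ≤ m ∧ ψ m r = a ∧ ψ m s = b ∧
      At m f r ∧ At m h s := by
    rintro f h _ _ ⟨n1, r, rfl, hr⟩ ⟨n2, s, rfl, hs⟩ n0
    obtain ⟨r', h1, h2⟩ := up n1 (n0 + n1 + n2) (by omega) f r hr
    obtain ⟨s', h3, h4⟩ := up n2 (n0 + n1 + n2) (by omega) h s hs
    exact ⟨_, r', s', by omega, h1, h3, h2, h4⟩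
  have le_iff : ∀ f h a b, Rk f a → Rk h b →
      (b ≤ a ↔ ∃ n, ∀ x y, (S n).A x → (S n).A y → f x = f y → h x = h y) := by
    intro f h a b ha hb
    constructor
    · intro hba
      obtain ⟨m, r, s, -, rfl, rfl, hr, hs⟩ := common f h a b ha hb 0
      have := sup_eq_right.2 (t2 m s r hba)
      refine ⟨m + 1, fun x y hx hy e => (up1 _ _ _ hs x y hx hy).2 ?_⟩
      have h1 := (up1 _ _ _ hr x y hx hy).1 e
      rw [← this] at h1
      exact (((S _).laws.sup _ _ x y hx hy).1 h1).1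
    · rintro ⟨n, hn⟩
      obtain ⟨m, r, s, hm, rfl, rfl, hr, hs⟩ := common f h a b ha hb n
      refine (hψ m).mono ?_
      by_contra hsr
      obtain ⟨x, y, hx, hy, h1, h2⟩ := (S m).rich.sep hsr
      exact h2 ((hs x y hx hy).1 (hn x y (anti _ _ hm _ hx) (anti _ _ hm _ hy)
        ((hr x y hx hy).2 h1)))
  have uniq : ∀ f a b, Rk f a → Rk f b → a = b := fun f a b ha hb =>
    le_antisymm ((le_iff f f b a hb ha).2 ⟨0, fun _ _ _ _ h => h⟩)
      ((le_iff f f a b ha hb).2 ⟨0, fun _ _ _ _ h => h⟩)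
  have : ∀ f, ∃ a, DF f → Rk f a := fun f => by
    by_cases hf : DF f
    · obtain ⟨n, r, h⟩ := s3 f hf
      exact ⟨ψ n r, fun _ => ⟨n, r, rfl, h⟩⟩
    · exact ⟨⊥, fun h => absurd h hf⟩
  choose Φ hΦ using this
  refine ⟨⟨fun n => (S n).A, Φ, fun n => (S n).arA, fun m n x h => anti m n h x,
    fun n => (S n).rich.nonempty, fun f h hf hh => le_iff f h _ _ (hΦ f hf) (hΦ h hh),
    fun f h hf hh => ?_, fun c => ?_, fun P hP => ?_, fun x => ⟨fun hx => ?_, ?_⟩⟩⟩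
  · obtain ⟨m, r, s, -, h1, h2, hr, hs⟩ := common f h _ _ (hΦ f hf) (hΦ h hh) 0
    refine uniq _ _ _ (hΦ _ (hf.pair hh)) ⟨m, r ⊔ s, by rw [(hψ m).1, h1, h2], fun x y hx hy => ?_⟩
    rw [pr_inj, hr x y hx hy, hs x y hx hy, (S m).laws.sup _ _ x y hx hy]
  · exact uniq _ _ _ (hΦ _ (DF.const c)) ⟨0, ⊥, (hψ 0).2.1, fun x y hx hy =>
      ⟨fun _ => (S 0).laws.bot x y hx hy, fun _ => rfl⟩⟩
  · have : Ar2 fun x y : M => (P x ∧ y = 0) ∨ (¬ P x ∧ y = 1) := ⟨ArI.out⟩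
    obtain ⟨f, hf, h1, -⟩ := exists_DF (fun x y : M => (P x ∧ y = 0) ∨ (¬ P x ∧ y = 1))
      fun x => by
        by_cases h : P x
        · exact ⟨0, Or.inl ⟨h, rfl⟩⟩
        · exact ⟨1, Or.inr ⟨h, rfl⟩⟩
    obtain ⟨n, r, hr⟩ := s3 f hf
    have hb : r = ⊥ := by
      by_contra hb
      obtain ⟨x, y, z, hx, hy, hz, e1, e2, e3⟩ := (S n).rich.three hb
      rw [← hr _ _ hx hy] at e1
      rw [← hr _ _ hx hz] at e2
      rw [← hr _ _ hy hz] at e3
      rcases h1 x with ⟨-, a⟩ | ⟨-, a⟩ <;> rcases h1 y with ⟨-, b⟩ | ⟨-, b⟩ <;>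
        rcases h1 z with ⟨-, c⟩ | ⟨-, c⟩ <;> simp_all
    subst hb
    refine ⟨n, ?_⟩
    by_contra hn
    push Not at hn
    obtain ⟨⟨x, hx, h2⟩, y, hy, h3⟩ := hn
    have := (hr x y hx hy).2 ((S n).laws.bot x y hx hy)
    rcases h1 x with ⟨a, -⟩ | ⟨-, a⟩
    · exact h2 a
    rcases h1 y with ⟨-, b⟩ | ⟨b, -⟩
    · rw [a, b] at this; exact one_ne_zero this
    · exact b h3
  · obtain ⟨n, r, hr⟩ := t4 x hx
    have := (S n).arA
    have := (S n).arE
    have : Ar2 fun x y : M => (S n).A x → (S n).A y ∧ (S n).E r x y := ⟨ArI.out⟩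
    obtain ⟨f, hf, h1, h2⟩ := exists_DF (fun x y : M => (S n).A x → (S n).A y ∧ (S n).E r x y)
      fun x => ⟨x, fun h => ⟨h, (S n).laws.refl r x h⟩⟩
    refine ⟨f, hf, uniq _ _ _ (hΦ f hf) ⟨n, r, hr, fun x y hx hy => ⟨fun e => ?_, fun e => ?_⟩⟩⟩
    · obtain ⟨a1, a2⟩ := h1 x hx
      obtain ⟨b1, b2⟩ := h1 y hy
      rw [e] at a2
      exact (S n).laws.trans r _ _ _ hx b1 hy a2 ((S n).laws.symm r _ _ hy b1 b2)
    · refine h2 x y fun z => ⟨fun h _ => ⟨(h hx).1, ?_⟩, fun h _ => ⟨(h hy).1, ?_⟩⟩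
      · exact (S n).laws.trans r _ _ _ hy hx (h hx).1 ((S n).laws.symm r _ _ hx hy e) (h hx).2
      · exact (S n).laws.trans r _ _ _ hx hy (h hy).1 e (h hy).2
  · rintro ⟨f, hf, e⟩
    obtain ⟨n, r, h, -⟩ := hΦ f hf
    exact t3 n r x (h.trans e)

end Pool.Agent.MP_fe71fa_lc.H18
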