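import Pool.Agent.MP_fe71fa_lc.H18.Sys

set_option autoImplicit false
set_option linter.unusedSectionVars false
set_option synthInstance.maxSize 100000

/-! The definable ultrapower and its lattice of elementary substructures. -/

namespace Pool.Agent.MP_fe71fa_lc.H18

open FirstOrder FirstOrder.Language Pool.Agent.MP_62ad46_lc.H18

section General
variable {L : FirstOrder.Language.{0, 0}} {P : Type} [L.Structure P]

/-- The Tarski-Vaught condition for a set. -/
def TV (L : FirstOrder.Language.{0, 0}) {P : Type} [L.Structure P] (S : P → Prop) : Prop :=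
  ∀ (n : ℕ) (φ : L.BoundedFormula Empty (n + 1)) (x : Fin n → P), (∀ i, S (x i)) → ∀ a : P,
    φ.Realize default (Fin.snoc x a : _ → P) → ∃ b, S b ∧ φ.Realize default (Fin.snoc x b : _ → P)

theorem TV.exists_sub {S : P → Prop} (h : TV L S) :
    ∃ K : L.ElementarySubstructure P, ∀ a, a ∈ K ↔ S a := by
  have hf : ∀ {n : ℕ} (f : L.Functions n) (x : Fin n → P), (∀ i, S (x i)) →
      S (Structure.funMap f x) := by
    intro n f x hx
    obtain ⟨b, hb, e⟩ := h n ((Term.func f fun i => Term.var (Sum.inr (Fin.castSucc i))).bdEqual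
      (Term.var (Sum.inr (Fin.last n)))) x hx (Structure.funMap f x) (by simp)
    have : Structure.funMap f x = b := by simpa using e
    exact this ▸ hb
  let K : L.Substructure P := ⟨{a | S a}, fun f x hx => hf f x hx⟩
  refine ⟨K.toElementarySubstructure fun n φ x a ha => ?_, fun a => Iff.rfl⟩
  obtain ⟨b, hb, e⟩ := h n φ _ (fun i => (x i).2) a ha
  exact ⟨⟨b, hb⟩, e⟩

theorem TV.comap {S : P → Prop} (h : TV L S) (N : L.ElementarySubstructure P)
    (hS : ∀ a, S a → a ∈ N) : TV L fun a : N => S a := by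
  intro n φ x hx a ha
  have e : ∀ c : N, φ.Realize default (Fin.snoc x c : _ → N) ↔
      φ.Realize default (Fin.snoc (fun i => (x i : P)) (c : P) : _ → P) := fun c => by
    rw [← N.subtype.map_boundedFormula, Fin.comp_snoc, Unique.eq_default (_ ∘ default)]
    rfl
  obtain ⟨b, hb, h'⟩ := h n φ (fun i => (x i : P)) hx a ((e a).1 ha)
  exact ⟨⟨b, hS b hb⟩, hb, (e _).2 h'⟩

theorem exists_mem {α : Type} (K : L.ElementarySubstructure P) (φ : L.Formula (α ⊕ Unit))
    (v : α → P) (hv : ∀ i, v i ∈ K) (b : P) (h : φ.Realize (Sum.elim v fun _ => b)) :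
    ∃ c ∈ K, φ.Realize (Sum.elim v fun _ => c) := by
  have h1 : (φ.iExs Unit).Realize (K.subtype ∘ fun i => (⟨v i, hv i⟩ : K)) :=
    Formula.realize_iExs.2 ⟨fun _ => b, h⟩
  rw [K.subtype.map_formula, Formula.realize_iExs] at h1
  obtain ⟨c, hc⟩ := h1
  rw [← K.subtype.map_formula] at hc
  refine ⟨c (), (c ()).2, ?_⟩
  convert hc using 1
  funext i
  rcases i with i | _ <;> rfl

theorem exists_iso {M Λ : Type} [CompleteLattice Λ] [IsCompactlyGenerated Λ] (e : M → P)
    (Φ : P → Λ) (hc : ∀ x, IsCompactElement x ↔ ∃ a, Φ a = x) (he : ∀ m, Φ (e m) = ⊥) (m0 : M)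
    (hK : ∀ K : L.ElementarySubstructure P, (∀ m, e m ∈ K) → ∀ a ∈ K, ∀ a' ∈ K, ∀ b,
      Φ b ≤ Φ a ⊔ Φ a' → b ∈ K)
    (hx : ∀ x, TV L fun a => Φ a ≤ x) :
    Nonempty ({K : L.ElementarySubstructure P // ∀ m, e m ∈ K} ≃o Λ) := by
  choose K hK' using fun x => (hx x).exists_sub
  have key : ∀ (U : L.ElementarySubstructure P), (∀ m, e m ∈ U) → ∀ b,
      Φ b ≤ sSup (Φ '' U) ↔ b ∈ U := by
    intro U hU b
    refine ⟨fun h => ?_, fun h => le_sSup ⟨b, h, rfl⟩⟩
    have hd : DirectedOn (· ≤ ·) (Φ '' U) := by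
      rintro _ ⟨a, ha, rfl⟩ _ ⟨a', ha', rfl⟩
      obtain ⟨c, hc'⟩ := (hc (Φ a ⊔ Φ a')).1 (by
        have := CompleteLattice.isCompactElement_finsetSup (f := fun i : Bool => cond i (Φ a) (Φ a'))
          Finset.univ (fun i _ => by cases i <;> exact (hc _).2 ⟨_, rfl⟩)
        simpa using this)
      exact ⟨Φ c, ⟨c, hK U hU a ha a' ha' c hc'.le, rfl⟩, hc' ▸ le_sup_left, hc' ▸ le_sup_right⟩
    obtain ⟨_, ⟨a, ha, rfl⟩, h'⟩ := (hc _).2 ⟨b, rfl⟩ (Φ '' U) (sSup (Φ '' U))
      ⟨_, e m0, hU m0, rfl⟩ hd (isLUB_sSup _) h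
    exact hK U hU a ha a ha b (by simpa using h')
  refine ⟨⟨⟨fun U => sSup (Φ '' U.1), fun x => ⟨K x, fun m => (hK' x _).2 (by simp [he])⟩,
    fun U => Subtype.ext (SetLike.ext fun b => (hK' _ _).trans (key U.1 U.2 b)), fun x => ?_⟩, ?_⟩⟩
  · refine le_antisymm (sSup_le ?_) ?_
    · rintro _ ⟨a, ha, rfl⟩
      exact (hK' x a).1 ha
    · conv_lhs => rw [← sSup_compact_le_eq x]
      refine sSup_le fun c hc' => ?_
      obtain ⟨a, rfl⟩ := (hc c).1 hc'.1
      exact le_sSup ⟨a, (hK' x a).2 hc'.2, rfl⟩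
  · intro U W
    refine ⟨fun h b hb => (key W.1 W.2 b).1 (((key U.1 U.2 b).2 hb).trans h),
      fun h => sSup_le_sSup (Set.image_mono h)⟩

end General

variable {M : Type} [CommSemiring M] [LinearOrder M] [IsPA M]

theorem formula_of_ar3 {H : M → M → M → Prop} (h : Ar fun v => H (v 0) (v 1) (v 2)) :
    ∃ φ : LA.Formula ((M ⊕ Bool) ⊕ Unit), ∀ x y z,
      H x y z ↔ φ.Realize (Sum.elim (Sum.elim id fun b => cond b y x) fun _ => z) := by
  obtain ⟨φ, hφ⟩ := formula_of_ar h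
  let g : M ⊕ ℕ → (M ⊕ Bool) ⊕ Unit := fun i => match i with
    | Sum.inl c => Sum.inl (Sum.inl c)
    | Sum.inr 0 => Sum.inl (Sum.inr false)
    | Sum.inr 1 => Sum.inl (Sum.inr true)
    | Sum.inr (_ + 2) => Sum.inr ()
  refine ⟨φ.relabel g, fun x y z => ?_⟩
  rw [Formula.realize_relabel]
  refine (hφ fun k => match k with | 0 => x | 1 => y | _ + 2 => z).trans ?_
  congr! 1
  funext j
  rcases j with c | _ | _ | k <;> rfl

namespace Sys
variable {Λ : Type} [CompleteLattice Λ] (S : Sys M Λ)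

theorem exists_ultra : ∃ u : Ultrafilter M, ∀ P : M → Prop, Ar1 P →
    ((∀ᶠ x in u, P x) ↔ ∃ n, ∀ x, S.A n x → P x) := by
  have hd : Directed (· ≥ ·) fun n => Filter.principal {x | S.A n x} := fun m n =>
    ⟨max m n, Filter.principal_mono.2 fun x => S.anti _ _ x (le_max_left _ _),
      Filter.principal_mono.2 fun x => S.anti _ _ x (le_max_right _ _)⟩
  have hn : (⨅ n, Filter.principal {x | S.A n x}).NeBot :=
    Filter.iInf_neBot_of_directed' hd fun n => Filter.principal_neBot_iff.2 (S.ne n)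
  have hu : ∀ n, ∀ᶠ x in (Ultrafilter.of (⨅ n, Filter.principal {x | S.A n x})), S.A n x :=
    fun n => Ultrafilter.of_le _ (Filter.mem_iInf_of_mem n (Filter.mem_principal_self _))
  refine ⟨Ultrafilter.of (⨅ n, Filter.principal {x | S.A n x}), fun P hP =>
    ⟨fun h => ?_, fun ⟨n, h⟩ => (hu n).mono h⟩⟩
  obtain ⟨n, h1 | h1⟩ := S.dec P hP
  · exact ⟨n, h1⟩
  · obtain ⟨x, hx, hx'⟩ := (h.and (hu n)).exists
    exact absurd hx (h1 x hx')

theorem tuple (x : WithTop Λ) : ∀ (n : ℕ) (f : Fin n → M → M), (∀ i, DF (f i) ∧ S.Φ (f i) ≤ x) →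
    ∃ F, DF F ∧ S.Φ F ≤ x ∧ ∀ a b, F a = F b → ∀ i, f i a = f i b
  | 0, _, _ => ⟨fun _ => 0, DF.const 0, by simp [S.const], fun _ _ _ i => i.elim0⟩
  | n + 1, f, h => by
    obtain ⟨F, h1, h2, h3⟩ := tuple x n (fun i => f i.succ) fun i => h _
    refine ⟨fun a => pr (f 0 a) (F a), (h 0).1.pair h1, ?_, fun a b e => ?_⟩
    · rw [S.sup _ _ (h 0).1 h1]
      exact sup_le (h 0).2 h2
    · rw [pr_inj] at e
      exact Fin.forall_fin_succ.2 ⟨e.1, h3 a b e.2⟩

theorem tv (u : Ultrafilter M) (x : WithTop Λ) :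
    TV LA fun a : (u : Filter M).Product fun _ => M => ∃ f, DF f ∧ S.Φ f ≤ x ∧ a = f := by
  have : Nonempty M := ⟨0⟩
  intro n φ a ha b hb
  choose f h1 h2 h3 using ha
  obtain ⟨F, hF1, hF2, hF3⟩ := S.tuple x n f fun i => ⟨h1 i, h2 i⟩
  have los : ∀ h : M → M,
      φ.Realize default (Fin.snoc a (h : (u : Filter M).Product fun _ => M) : _ → _) ↔
      ∀ᶠ t in u, φ.Realize default (Fin.snoc (fun i => f i t) (h t) : _ → M) := by
    intro h
    refine Iff.trans ?_ ((Ultraproduct.boundedFormula_realize_cast (u := u) (M := fun _ : M => M) φ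
      (default : Empty → M → M) (Fin.snoc f h)).trans (Filter.eventually_congr
        (Filter.Eventually.of_forall fun t => ?_)))
    · refine iff_of_eq (congrArg₂ φ.Realize (Subsingleton.elim _ _) (funext fun i => ?_))
      refine Fin.lastCases ?_ (fun j => ?_) i
      · rw [Fin.snoc_last, Fin.snoc_last]
      · rw [Fin.snoc_castSucc, Fin.snoc_castSucc, h3]
    · refine iff_of_eq (congrArg₂ φ.Realize (Subsingleton.elim _ _) (funext fun i => ?_))
      refine Fin.lastCases ?_ (fun j => ?_) i <;> simp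
  let Q : M → M → Prop := fun t y => φ.Realize default (Fin.snoc (fun i => f i t) y : _ → M)
  have hQ : Ar2 Q := ⟨by
    have := ar_formula φ (default : Empty → (ℕ → M) → M)
      (Fin.snoc (fun i v => f i (v 0)) fun v => v 1) (fun i => i.elim) (fun i => by
        refine Fin.lastCases ?_ (fun j => ?_) i
        · rw [Fin.snoc_last]; exact DT.tm (Tm.var 1)
        · rw [Fin.snoc_castSucc]; exact (h1 j).dt 0)
    refine this.congr fun v => ?_
    refine iff_of_eq (congrArg₂ φ.Realize (Subsingleton.elim _ _) (funext fun i => ?_))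
    refine Fin.lastCases ?_ (fun j => ?_) i <;> simp⟩
  have : Ar2 fun t y => (∃ z, Q t z) → Q t y := ⟨by clear_value Q; exact ArI.out⟩
  obtain ⟨h, hh, e1, e2⟩ := exists_DF (fun t y => (∃ z, Q t z) → Q t y) fun t => by
    by_cases hz : ∃ z, Q t z
    · obtain ⟨z, hz⟩ := hz
      exact ⟨z, fun _ => hz⟩
    · exact ⟨0, fun h => absurd h hz⟩
  obtain ⟨b, rfl⟩ := Quotient.exists_rep b
  refine ⟨h, ⟨h, hh, le_trans ((S.le_iff F h hF1 hh).2 ⟨0, fun s t _ _ e => e2 s t fun y => ?_⟩) hF2,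
    rfl⟩, (los h).2 (((los b).1 hb).mono fun t ht => e1 t ⟨_, ht⟩)⟩
  simp only [Q, hF3 s t e]

include S in
theorem main [IsCompactlyGenerated Λ] : ∃ (N : Type) (_ : LA.Structure N) (e : M ↪ₑ[LA] N),
    Nonempty ({K : LA.ElementarySubstructure N // ∀ m, e m ∈ K} ≃o Λ) := by
  have : Nonempty M := ⟨0⟩
  obtain ⟨u, hu⟩ := S.exists_ultra
  let P := (u : Filter M).Product fun _ => M
  let c : (M → M) → P := fun f => f
  have ceq : ∀ f h, c f = c h ↔ ∀ᶠ t in u, f t = h t := fun f h => Quotient.eq''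
  have los : ∀ {α : Type} (φ : LA.Formula α) (v : α → M → M),
      φ.Realize (fun i => c (v i)) ↔ ∀ᶠ t in u, φ.Realize fun i => v i t :=
    fun φ v => Ultraproduct.realize_formula_cast (u := u) (M := fun _ : M => M) φ v
  have wd : ∀ f h, DF f → DF h → c f = c h → S.Φ f = S.Φ h := by
    intro f h hf hh e
    have : Ar2 (Gr f) := hf
    have : Ar2 (Gr h) := hh
    have h1 : Ar fun v : ℕ → M => ∃ z, Gr f (v 0) z ∧ Gr h (v 0) z := ArI.out
    obtain ⟨n, hn⟩ := (hu (fun t => f t = h t) ⟨h1.congr fun v => by simp [Gr, eq_comm]⟩).1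
      ((ceq f h).1 e)
    exact le_antisymm
      ((S.le_iff h f hh hf).2 ⟨n, fun x y hx hy e => by rw [hn x hx, hn y hy, e]⟩)
      ((S.le_iff f h hf hh).2 ⟨n, fun x y hx hy e => by rw [← hn x hx, ← hn y hy, e]⟩)
  obtain ⟨N, hN⟩ := (S.tv u (⊤ : Λ)).exists_sub
  have hrep : ∀ a : N, ∃ (f : M → M) (x : Λ), DF f ∧ S.Φ f = x ∧ (a : P) = c f := by
    intro a
    obtain ⟨f, h1, h2, h3⟩ := (hN a).1 a.2
    obtain ⟨x, hx, -⟩ := WithTop.le_coe_iff.1 h2
    exact ⟨f, x, h1, hx, h3⟩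
  choose f Φ h1 h2 h3 using hrep
  have hcN : ∀ m : M, c (fun _ => m) ∈ N := fun m =>
    (hN _).2 ⟨_, DF.const m, by simp [S.const], rfl⟩
  let e : M ↪ₑ[LA] N := ⟨fun m => ⟨c fun _ => m, hcN m⟩, fun n φ x => by
    rw [← N.subtype.map_formula]
    exact (los φ fun i _ => x i).trans Filter.eventually_const⟩
  have hΦ : ∀ (a : N) (h : M → M), DF h → (a : P) = c h → S.Φ h = Φ a := fun a h hh e => by
    rw [← h2, wd _ _ (h1 a) hh ((h3 a).symm.trans e)]
  refine ⟨N, inferInstance, e, exists_iso e Φ (fun x => ?_) (fun m => ?_) 0 ?_ fun x => ?_⟩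
  · rw [S.range]
    constructor
    · rintro ⟨h, hh, hx⟩
      refine ⟨⟨c h, (hN _).2 ⟨h, hh, by simp [hx], rfl⟩⟩, WithTop.coe_injective ?_⟩
      rw [← hΦ _ h hh rfl, hx]
    · rintro ⟨a, rfl⟩
      exact ⟨f a, h1 a, h2 a⟩
  · refine WithTop.coe_injective ?_
    rw [← hΦ _ _ (DF.const m) rfl, S.const]
    rfl
  · intro K hK a ha a' ha' b hb
    have hb' : S.Φ (f b) ≤ S.Φ fun t => pr (f a t) (f a' t) := by
      rw [S.sup _ _ (h1 a) (h1 a'), h2, h2, h2]
      exact_mod_cast hb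
    obtain ⟨n, hn⟩ := (S.le_iff _ _ ((h1 a).pair (h1 a')) (h1 b)).1 hb'
    have i1 : Ar2 (Gr (f a)) := h1 a
    have i2 : Ar2 (Gr (f a')) := h1 a'
    have i3 : Ar2 (Gr (f b)) := h1 b
    have i4 := S.ar n
    obtain ⟨φ, hφ⟩ := formula_of_ar3
      (H := fun x y z => ∃ t, S.A n t ∧ Gr (f a) t x ∧ Gr (f a') t y ∧ Gr (f b) t z) ArI.out
    have hr : ∀ d : N, φ.Realize (Sum.elim (Sum.elim e fun i => cond i a' a) fun _ => d) ↔
        ∀ᶠ s in u, ∃ t, S.A n t ∧ f a t = f a s ∧ f a' t = f a' s ∧ f b t = f d s := by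
      intro d
      rw [← N.subtype.map_formula]
      have := los φ (Sum.elim (Sum.elim (fun m _ => m) fun i => cond i (f a') (f a)) fun _ => f d)
      convert this using 2
      · funext i
        rcases i with (m | _ | _) | _
        · rfl
        · exact h3 a
        · exact h3 a'
        · exact h3 d
      · funext s
        refine propext ((hφ _ _ _).trans ?_)
        congr! 1
        funext i
        rcases i with (m | _ | _) | _ <;> rfl
    have hA : ∀ᶠ s in u, S.A n s := (hu _ i4).2 ⟨n, fun _ h => h⟩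
    obtain ⟨d, hd, hd'⟩ := exists_mem K φ (Sum.elim e fun i => cond i a' a)
      (by rintro (m | _ | _); exacts [hK m, ha, ha']) b
      ((hr b).2 (hA.mono fun s hs => ⟨s, hs, rfl, rfl, rfl⟩))
    have : b = d := by
      refine Subtype.ext ((h3 b).trans (Eq.trans ?_ (h3 d).symm))
      refine (ceq _ _).2 ((((hr d).1 hd').and hA).mono ?_)
      rintro s ⟨⟨t, ht, e1, e2, e3⟩, hs⟩
      rw [← e3]
      exact hn s t hs ht (by rw [e1, e2])
    exact this ▸ hd
  · have := (S.tv u (x : Λ)).comap N fun a ⟨h, hh, hx, e⟩ =>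
      (hN a).2 ⟨h, hh, hx.trans (WithTop.coe_le_coe.2 le_top), e⟩
    convert this using 2
    rename_i a
    constructor
    · exact fun h => ⟨f a, h1 a, by rw [h2]; exact WithTop.coe_le_coe.2 h, h3 a⟩
    · rintro ⟨h, hh, hx, e⟩
      rwa [hΦ a h hh e, WithTop.coe_le_coe] at hx

end Sys

theorem final_of (hC : CanonStmt) (hR : RepStmt) (hT : TowerStmt) : FinalStmt := by
  intro L _ _ hc hV M _ _ _ hM hn
  have := hM.isPA
  obtain ⟨S⟩ := exists_sys (M := M) hC hR hT (by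
    by_contra h
    push Not at h
    exact hn h) L hc hV
  exact S.main

end Pool.Agent.MP_fe71fa_lc.H18
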